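import Pool.Agent.Lib.MP_3dc428_gt.DimMain

/-!
The complement of the orbit of the domain `W_t` in `V_t`, `t > 2`, has Hausdorff dimension
less than two.
-/

open Set Pool.Agent.Lib.MP_3dc428_gt

theorem Pool.Agent.Results.MP_3dc428_gt.DimensionBelowTwo.result
    (t : ℝ) (ht : 2 < t) (oriented : Prop) :
    dimH (level t \ ⋃ g ∈ modGroup oriented, g '' fricke t) < 2 :=
  dim_complement (Real.lt_sqrt_of_sq_lt (by linarith)) (Real.sq_sqrt (by linarith)) oriented
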