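import Pool.Agent.Lib.MP_3dc428_gt.Main

/-!
Mapping class group dynamics on the level sets `V_t`, `t > 2`, of the twisted component.
-/

open MeasureTheory Set Pool.Agent.Lib.MP_3dc428_gt

theorem Pool.Agent.Results.MP_3dc428_gt.FullMeasureFrickeOrbit.result
    (t : ℝ) (ht : 2 < t) (oriented : Prop) :
    ¬ IsErgodicOn (modGroup oriented) (level t) ∧
    IsWanderingDomain (modGroup oriented) t (fricke t) ∧
    IsGreatest {U | IsWanderingDomain (modGroup oriented) t U}
      (⋃ g ∈ modGroup oriented, g '' fricke t) ∧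
    μH[2] (level t \ ⋃₀ {U | IsWanderingDomain (modGroup oriented) t U}) = 0 ∧
    IsErgodicOn (modGroup oriented)
      (level t \ ⋃₀ {U | IsWanderingDomain (modGroup oriented) t U}) := by
  have hlt : √(t + 2) ^ 2 = t + 2 := Real.sq_sqrt (by linarith)
  have hl : 2 < √(t + 2) := Real.lt_sqrt_of_sq_lt (by linarith)
  have h0 : μH[2] (level t \ ⋃₀ {U | IsWanderingDomain (modGroup oriented) t U}) = 0 := by
    rw [sUnion_wandering hl hlt]
    exact null_complement hl hlt
  exact ⟨not_ergodic hl hlt, wandering_fricke hl hlt,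
    ⟨wandering_orbit hl hlt, fun U hU => wandering_subset hl hlt hU⟩, h0,
    fun A hA _ _ => Or.inl (measure_mono_null hA h0)⟩
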